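import Pool.Agent.H200G.Stm3

/-! # Project GR, job GR-UNGR: unions are graded, repeated multiplicities (dyadic regrouping). -/

set_option autoImplicit false

namespace Pool.Agent.Q199.GR

open Finset Pool.Agent.H200G

theorem repUn : S_RepUn := by
  intro n w S h
  refine ⟨w, fun i hi => ?_⟩
  by_cases h0 : w i = 0
  · simp [h0]
  · have h1 : ((S.filter fun j => w j = w i ∧ w j ≠ 0).image w).card ≤ 1 := by
      refine Finset.card_le_one.2 ?_
      intro a ha b hb
      obtain ⟨x, hx, rfl⟩ := Finset.mem_image.1 ha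
      obtain ⟨y, hy, rfl⟩ := Finset.mem_image.1 hb
      rw [(Finset.mem_filter.1 hx).2.1, (Finset.mem_filter.1 hy).2.1]
    have h2 : ∑ j ∈ S.filter (fun j => w j = w i), w j ^ 2
        = (S.filter fun j => w j = w i).card * w i ^ 2 := by
      rw [Finset.sum_congr rfl (g := fun _ => w i ^ 2)
        (fun j hj => by rw [(Finset.mem_filter.1 hj).2]), Finset.sum_const, smul_eq_mul]
    rw [h2]
    calc 2 ^ 29 * w i ^ 2 * ((S.filter fun j => w j = w i ∧ w j ≠ 0).image w).card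
        ≤ 2 ^ 29 * w i ^ 2 * 1 := Nat.mul_le_mul_left _ h1
      _ ≤ (S.filter fun j => w j = w i).card * w i ^ 2 := by
          rw [mul_one]
          exact Nat.mul_le_mul_right _ (h i hi h0)

theorem unGr : S_UnGr := by
  intro n κ w S hU hκ
  obtain ⟨c, hc⟩ := hU
  let μ : ℕ → ℕ := fun g => (S.filter fun j => c j = g).sup w
  have hμ : ∀ i ∈ S, w i ≤ μ (c i) := fun i hi =>
    Finset.le_sup (f := w) (Finset.mem_filter.2 ⟨hi, rfl⟩)
  have hμκ : ∀ g, μ g < 2 ^ κ := fun g => by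
    refine (Finset.sup_lt_iff (by simp)).2 ?_
    intro j hj
    exact hκ j (Finset.mem_filter.1 hj).1
  refine ⟨fun i => Nat.size (μ (c i)), fun i hi => ⟨lt_of_le_of_lt (hμ i hi) (Nat.lt_size_self _),
    Nat.size_le.2 (hμκ _)⟩, fun k => ?_⟩
  -- groups
  let C : Finset ℕ := (S.filter fun i => Nat.size (μ (c i)) = k).image c
  have key : ∀ g ∈ C, 2 ^ 27 * 4 ^ k * ((S.filter fun j => c j = g ∧ w j ≠ 0).image w).card ≤
      ∑ j ∈ S.filter (fun j => c j = g), w j ^ 2 := by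
    intro g hg
    obtain ⟨i0, hi0, rfl⟩ := Finset.mem_image.1 hg
    obtain ⟨hi0S, hi0k⟩ := Finset.mem_filter.1 hi0
    by_cases h0 : μ (c i0) = 0
    · have : (S.filter fun j => c j = c i0 ∧ w j ≠ 0) = ∅ := by
        refine Finset.filter_eq_empty_iff.2 ?_
        rintro j hj ⟨h1, h2⟩
        have := hμ j hj
        rw [h1, h0] at this
        omega
      rw [this]
      simp
    · have hne : (S.filter fun j => c j = c i0).Nonempty := ⟨i0, Finset.mem_filter.2 ⟨hi0S, rfl⟩⟩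
      obtain ⟨j0, hj0, hj0e⟩ := Finset.exists_mem_eq_sup _ hne w
      obtain ⟨hj0S, hj0c⟩ := Finset.mem_filter.1 hj0
      have hk : 0 < k := by
        rw [← hi0k]
        exact Nat.size_pos.2 (Nat.pos_of_ne_zero h0)
      have h2 : 2 ^ (k - 1) ≤ μ (c i0) := by
        have : k - 1 < Nat.size (μ (c i0)) := by omega
        exact Nat.lt_size.1 this
      have h4 : 4 ^ k ≤ 4 * μ (c i0) ^ 2 := by
        obtain ⟨m, rfl⟩ : ∃ m, k = m + 1 := ⟨k - 1, by omega⟩
        simp only [Nat.add_sub_cancel] at h2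
        have h5 : (2 ^ m) ^ 2 ≤ μ (c i0) ^ 2 := Nat.pow_le_pow_left h2 2
        have h6 : (4 : ℕ) ^ (m + 1) = 4 * (2 ^ m) ^ 2 := by
          rw [pow_succ, ← pow_mul, mul_comm m 2, pow_mul]
          ring
        rw [h6]
        exact Nat.mul_le_mul_left _ h5
      have h7 := hc j0 hj0S
      rw [hj0c] at h7
      have h8 : w j0 = μ (c i0) := hj0e.symm
      rw [h8] at h7
      refine le_trans ?_ h7
      calc 2 ^ 27 * 4 ^ k * ((S.filter fun j => c j = c i0 ∧ w j ≠ 0).image w).card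
          ≤ 2 ^ 27 * (4 * μ (c i0) ^ 2) * ((S.filter fun j => c j = c i0 ∧ w j ≠ 0).image w).card :=
            Nat.mul_le_mul_right _ (Nat.mul_le_mul_left _ h4)
        _ = 2 ^ 29 * μ (c i0) ^ 2 * ((S.filter fun j => c j = c i0 ∧ w j ≠ 0).image w).card := by ring
  have hsub : ((S.filter fun i => Nat.size (μ (c i)) = k ∧ w i ≠ 0).image w) ⊆
      C.biUnion (fun g => (S.filter fun j => c j = g ∧ w j ≠ 0).image w) := by
    intro a ha
    obtain ⟨i, hi, rfl⟩ := Finset.mem_image.1 ha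
    obtain ⟨hiS, hik, hi0⟩ := Finset.mem_filter.1 hi
    refine Finset.mem_biUnion.2 ⟨c i, Finset.mem_image.2 ⟨i, Finset.mem_filter.2 ⟨hiS, hik⟩, rfl⟩, ?_⟩
    exact Finset.mem_image.2 ⟨i, Finset.mem_filter.2 ⟨hiS, rfl, hi0⟩, rfl⟩
  have hcard := (Finset.card_le_card hsub).trans Finset.card_biUnion_le
  have hsum : ∑ i ∈ S.filter (fun i => Nat.size (μ (c i)) = k), w i ^ 2
      = ∑ g ∈ C, ∑ j ∈ S.filter (fun j => c j = g), w j ^ 2 := by
    rw [← Finset.sum_fiberwise_of_maps_to (s := S.filter (fun i => Nat.size (μ (c i)) = k)) (t := C)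
      (g := c) (fun i hi => Finset.mem_image_of_mem c hi)]
    refine Finset.sum_congr rfl fun g hg => Finset.sum_congr ?_ fun _ _ => rfl
    obtain ⟨i0, hi0, rfl⟩ := Finset.mem_image.1 hg
    obtain ⟨hi0S, hi0k⟩ := Finset.mem_filter.1 hi0
    ext j
    simp only [Finset.mem_filter]
    constructor
    · rintro ⟨⟨h1, _⟩, h3⟩
      exact ⟨h1, h3⟩
    · rintro ⟨h1, h3⟩
      exact ⟨⟨h1, by rw [h3]; exact hi0k⟩, h3⟩
  rw [hsum]
  calc 2 ^ 27 * 4 ^ k * ((S.filter fun i => Nat.size (μ (c i)) = k ∧ w i ≠ 0).image w).card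
      ≤ 2 ^ 27 * 4 ^ k * ∑ g ∈ C, ((S.filter fun j => c j = g ∧ w j ≠ 0).image w).card :=
        Nat.mul_le_mul_left _ hcard
    _ = ∑ g ∈ C, 2 ^ 27 * 4 ^ k * ((S.filter fun j => c j = g ∧ w j ≠ 0).image w).card := by
        rw [Finset.mul_sum]
    _ ≤ ∑ g ∈ C, ∑ j ∈ S.filter (fun j => c j = g), w j ^ 2 := Finset.sum_le_sum key

end Pool.Agent.Q199.GR
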